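import Pool.Agent.P8H73.KV.Stm
import Pool.Agent.Erdos456.Mertens

/-!
# Package CPW: tuples with a powerful product, uniformly in the length
-/

set_option autoImplicit false

namespace Pool.Agent.P8H75.KV

open Finset Pool.Agent.Y844.BT Pool.Agent.P8H73.KV

/-- The number of factorisations of `q` into `r` factors. -/
def D (r q : ℕ) : ℕ := (Nat.finMulAntidiag r q).card

theorem split (r : ℕ) : ∀ (f : Fin r → ℕ) (m : ℕ), m ∣ ∏ i, f i →
    ∃ u : Fin r → ℕ, (∀ i, u i ∣ f i) ∧ ∏ i, u i = m := by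
  induction r with
  | zero =>
    intro f m hm
    refine ⟨fun i => 1, fun i => i.elim0, ?_⟩
    simp only [univ_eq_empty, prod_empty] at hm ⊢
    exact (Nat.dvd_one.mp hm).symm
  | succ r ih =>
    intro f m hm
    rw [Fin.prod_univ_succ] at hm
    obtain ⟨a, b, ha, hb, hab⟩ := exists_dvd_and_dvd_of_dvd_mul hm
    obtain ⟨u, hu1, hu2⟩ := ih (fun i => f i.succ) b hb
    refine ⟨Fin.cons a u, ?_, ?_⟩
    · intro i
      refine Fin.cases ?_ (fun j => ?_) i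
      · simpa using ha
      · simpa using hu1 j
    · rw [Fin.prod_univ_succ]
      simp only [Fin.cons_zero, Fin.cons_succ]
      rw [hu2, hab]

theorem D_mul_le (r : ℕ) {m n : ℕ} (hm : m ≠ 0) (hn : n ≠ 0) : D r (m * n) ≤ D r m * D r n := by
  unfold D
  rw [← card_product]
  refine le_trans (card_le_card (t := (Nat.finMulAntidiag r m ×ˢ Nat.finMulAntidiag r n).image
    (fun x => fun i => x.1 i * x.2 i)) ?_) card_image_le
  intro f hf
  rw [Nat.mem_finMulAntidiag] at hf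
  obtain ⟨u, hu1, hu2⟩ := split r f m (hf.1 ▸ Dvd.intro n rfl)
  choose v hv using hu1
  rw [mem_image]
  refine ⟨(u, v), ?_, ?_⟩
  · rw [mem_product, Nat.mem_finMulAntidiag, Nat.mem_finMulAntidiag]
    refine ⟨⟨hu2, hm⟩, ?_, hn⟩
    have h1 : ∏ i, f i = (∏ i, u i) * ∏ i, v i := by
      rw [← prod_mul_distrib]
      exact prod_congr rfl fun i _ => hv i
    rw [hf.1, hu2] at h1
    exact (Nat.eq_of_mul_eq_mul_left (Nat.pos_of_ne_zero hm) h1).symm
  · funext i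
    exact (hv i).symm

theorem D_one (r : ℕ) : D r 1 = 1 := by
  unfold D
  rw [Nat.card_finMulAntidiag_of_squarefree squarefree_one]
  simp

theorem D_prod_le (r s : ℕ) (f : Fin s → ℕ) (hf : ∀ i, 0 < f i) :
    D r (∏ i, f i) ≤ ∏ i, D r (f i) := by
  classical
  have key : ∀ T : Finset (Fin s), D r (∏ i ∈ T, f i) ≤ ∏ i ∈ T, D r (f i) := by
    intro T
    induction T using Finset.induction_on with
    | empty => simp [D_one]
    | insert a T ha ih =>
      rw [prod_insert ha, prod_insert ha]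
      refine (D_mul_le r (hf a).ne' (prod_pos fun i _ => hf i).ne').trans ?_
      exact Nat.mul_le_mul_left _ ih
  exact key univ

/-- The general inequality. -/
theorem gen (r Y : ℕ) (w : ℕ → ℝ) (hw : ∀ n, 0 ≤ w n)
    (hw2 : ∀ f : Fin r → ℕ, (∀ i, 0 < f i) → w (∏ i, f i) ≤ ∏ i, w (f i)) :
    ∑ a ∈ Icc 1 Y, (D r a : ℝ) * w a ≤ (∑ n ∈ Icc 1 Y, w n) ^ r := by
  have h1 : (∑ n ∈ Icc 1 Y, w n) ^ r =
      ∑ f ∈ Fintype.piFinset (fun _ : Fin r => Icc 1 Y), ∏ i, w (f i) := by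
    rw [← prod_univ_sum]
    simp
  rw [h1]
  have h2 : ∑ f ∈ (Fintype.piFinset (fun _ : Fin r => Icc 1 Y)).filter (fun f => ∏ i, f i ∈ Icc 1 Y),
      ∏ i, w (f i) ≤ ∑ f ∈ Fintype.piFinset (fun _ : Fin r => Icc 1 Y), ∏ i, w (f i) :=
    sum_le_sum_of_subset_of_nonneg (filter_subset _ _) fun f _ _ => prod_nonneg fun i _ => hw _
  refine le_trans ?_ h2
  rw [← sum_fiberwise_of_maps_to (t := Icc 1 Y) (g := fun f : Fin r → ℕ => ∏ i, f i)
    (fun f hf => (mem_filter.mp hf).2)]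
  refine sum_le_sum fun a ha => ?_
  have h3 : Nat.finMulAntidiag r a ⊆ ((Fintype.piFinset (fun _ : Fin r => Icc 1 Y)).filter
      (fun f => ∏ i, f i ∈ Icc 1 Y)).filter (fun f => ∏ i, f i = a) := by
    intro f hf
    rw [Nat.mem_finMulAntidiag] at hf
    rw [mem_filter, mem_filter, Fintype.mem_piFinset]
    refine ⟨⟨fun i => ?_, ?_⟩, hf.1⟩
    · have h4 : f i ∣ a := by
        rw [← hf.1]
        exact dvd_prod_of_mem f (mem_univ i)
      rw [mem_Icc] at ha ⊢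
      exact ⟨Nat.pos_of_dvd_of_pos h4 (by omega), (Nat.le_of_dvd (by omega) h4).trans ha.2⟩
    · rw [hf.1]
      exact ha
  calc (D r a : ℝ) * w a = ∑ f ∈ Nat.finMulAntidiag r a, w a := by
        rw [sum_const, nsmul_eq_mul]
        rfl
    _ ≤ ∑ f ∈ Nat.finMulAntidiag r a, ∏ i, w (f i) := by
        refine sum_le_sum fun f hf => ?_
        rw [Nat.mem_finMulAntidiag] at hf
        have h5 := hw2 f (fun i => by
          have h4 : f i ∣ a := by
            rw [← hf.1]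
            exact dvd_prod_of_mem f (mem_univ i)
          rw [mem_Icc] at ha
          exact Nat.pos_of_dvd_of_pos h4 (by omega))
        rwa [hf.1] at h5
    _ ≤ _ := sum_le_sum_of_subset_of_nonneg h3 fun f _ _ => prod_nonneg fun i _ => hw _

theorem harm (Y : ℕ) : ∑ n ∈ Icc 1 Y, (1 : ℝ) / n ≤ 1 + Real.log Y := by
  have h5 := harmonic_le_one_add_log Y
  rw [harmonic_eq_sum_Icc] at h5
  push_cast at h5
  simpa [one_div] using h5

theorem sum_D (r Y : ℕ) (hY : 1 ≤ Y) :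
    ∑ a ∈ Icc 1 Y, (D r a : ℝ) * (1 / a) ≤ (1 + Real.log Y) ^ r := by
  have hY1 : (1 : ℝ) ≤ Y := by exact_mod_cast hY
  refine (gen r Y (fun n => 1 / (n : ℝ)) (fun n => by positivity) ?_).trans ?_
  · intro f _
    rw [prod_div_distrib]
    simp
  · exact pow_le_pow_left₀ (sum_nonneg fun n _ => by positivity) (harm Y) r

theorem sum_DD (r Y : ℕ) (hY : 1 ≤ Y) :
    ∑ a ∈ Icc 1 Y, (D r a : ℝ) * ((D r a : ℝ) * (1 / a)) ≤ ((1 + Real.log Y) ^ r) ^ r := by
  refine (gen r Y (fun n => (D r n : ℝ) * (1 / (n : ℝ))) (fun n => by positivity) ?_).trans ?_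
  · intro f hf
    rw [prod_mul_distrib]
    have h1 : ((D r (∏ i, f i) : ℕ) : ℝ) ≤ ∏ i, (D r (f i) : ℝ) := by
      exact_mod_cast D_prod_le r r f hf
    have h2 : (1 : ℝ) / ((∏ i, f i : ℕ) : ℝ) = ∏ i, (1 / (f i : ℝ)) := by
      rw [prod_div_distrib]
      simp
    rw [h2]
    exact mul_le_mul_of_nonneg_right h1 (prod_nonneg fun i _ => by positivity)
  · exact pow_le_pow_left₀ (sum_nonneg fun n _ => by positivity) (sum_D r Y hY) r

theorem D_sqf (r : ℕ) {b : ℕ} (hb : Squarefree b) : (D r b : ℝ) = ∏ p ∈ b.primeFactors, (r : ℝ) := by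
  unfold D
  rw [Nat.card_finMulAntidiag_of_squarefree hb, prod_const]
  push_cast
  congr 1

theorem term_eq (r : ℕ) {b : ℕ} (hb : Squarefree b) :
    (D r b : ℝ) ^ 3 * (1 / (b * √(b : ℝ))) = ∏ p ∈ b.primeFactors, ((r : ℝ) / √(p : ℝ)) ^ 3 := by
  have h1 : √(b : ℝ) = ∏ p ∈ b.primeFactors, √(p : ℝ) := by
    have h2 : (b : ℝ) = (∏ p ∈ b.primeFactors, √(p : ℝ)) ^ 2 := by
      rw [← prod_pow]
      have h3 : ∀ p ∈ b.primeFactors, √(p : ℝ) ^ 2 = (p : ℝ) := fun p _ =>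
        Real.sq_sqrt (Nat.cast_nonneg p)
      rw [prod_congr rfl h3]
      have h4 := Nat.prod_primeFactors_of_squarefree hb
      conv_lhs => rw [← h4]
      push_cast
      rfl
    conv_lhs => rw [h2]
    rw [Real.sqrt_sq (prod_nonneg fun p _ => Real.sqrt_nonneg _)]
  have h5 : (b : ℝ) * √(b : ℝ) = √(b : ℝ) ^ 3 := by
    have := Real.sq_sqrt (Nat.cast_nonneg b : (0 : ℝ) ≤ (b : ℝ))
    calc (b : ℝ) * √(b : ℝ) = √(b : ℝ) ^ 2 * √(b : ℝ) := by rw [this]
      _ = √(b : ℝ) ^ 3 := by ring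
  rw [h5, h1, D_sqf r hb, ← prod_pow, ← prod_pow, one_div, ← prod_inv_distrib, ← prod_mul_distrib]
  refine prod_congr rfl fun p _ => ?_
  rw [div_pow, div_eq_mul_inv]

theorem sum_sqf (r Y : ℕ) :
    ∑ b ∈ (Icc 1 Y).filter Squarefree, (D r b : ℝ) ^ 3 * (1 / (b * √(b : ℝ))) ≤
      ∏ p ∈ (Icc 1 Y).filter Nat.Prime, (1 + ((r : ℝ) / √(p : ℝ)) ^ 3) := by
  classical
  rw [prod_one_add]
  have h1 : ∀ b ∈ (Icc 1 Y).filter Squarefree, (D r b : ℝ) ^ 3 * (1 / (b * √(b : ℝ))) =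
      ∏ p ∈ b.primeFactors, ((r : ℝ) / √(p : ℝ)) ^ 3 := fun b hb => term_eq r (mem_filter.mp hb).2
  rw [sum_congr rfl h1, ← sum_image (s := (Icc 1 Y).filter Squarefree) (g := Nat.primeFactors)
    (f := fun T : Finset ℕ => ∏ p ∈ T, ((r : ℝ) / √(p : ℝ)) ^ 3)]
  · refine sum_le_sum_of_subset_of_nonneg ?_ fun T _ _ => prod_nonneg fun p _ => by positivity
    intro T hT
    rw [mem_image] at hT
    obtain ⟨b, hb, rfl⟩ := hT
    rw [mem_filter, mem_Icc] at hb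
    rw [mem_powerset]
    intro p hp
    have hpp := Nat.prime_of_mem_primeFactors hp
    rw [mem_filter, mem_Icc]
    exact ⟨⟨hpp.pos, (Nat.le_of_dvd (by omega) (Nat.dvd_of_mem_primeFactors hp)).trans hb.1.2⟩, hpp⟩
  · intro b hb c hc hbc
    have h2 := Nat.prod_primeFactors_of_squarefree (mem_filter.mp (mem_coe.mp hb)).2
    have h3 := Nat.prod_primeFactors_of_squarefree (mem_filter.mp (mem_coe.mp hc)).2
    rw [← h2, ← h3]
    exact congrArg (fun T : Finset ℕ => ∏ p ∈ T, p) hbc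

theorem cube_le (u : ℝ) : 1 + u ^ 3 ≤ Real.exp (u ^ 2) := by
  have h1 := Real.quadratic_le_exp_of_nonneg (sq_nonneg u)
  refine le_trans ?_ h1
  nlinarith [mul_nonneg (sq_nonneg u) (sq_nonneg (u - 1)), sq_nonneg u,
    mul_nonneg (sq_nonneg u) (by nlinarith [sq_nonneg (u - 1)] : 0 ≤ u ^ 2 - 2 * u + 2)]

theorem prod_le (r Y : ℕ) :
    ∏ p ∈ (Icc 1 Y).filter Nat.Prime, (1 + ((r : ℝ) / √(p : ℝ)) ^ 3) ≤
      Real.exp (∑ p ∈ (Icc 1 Y).filter Nat.Prime, (1 : ℝ) / p) ^ (r ^ 2) := by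
  rw [← Real.exp_nat_mul, mul_sum, Real.exp_sum]
  refine prod_le_prod (fun p _ => by positivity) fun p _ => ?_
  refine (cube_le _).trans (le_of_eq ?_)
  congr 1
  rw [div_pow, Real.sq_sqrt (Nat.cast_nonneg p)]
  push_cast
  ring

theorem mert : ∃ C : ℝ, 1 ≤ C ∧ ∀ Y : ℕ, 1 ≤ Y →
    Real.exp (∑ p ∈ (Icc 1 Y).filter Nat.Prime, (1 : ℝ) / p) ≤ C * (1 + Real.log Y) := by
  obtain ⟨C, hC⟩ := Pool.Agent.Erdos456.Mert.mertens_inv
  have hC0 : 0 ≤ C := (abs_nonneg _).trans (hC 3 le_rfl)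
  refine ⟨Real.exp (C + 2), Real.one_le_exp (by linarith), fun Y hY => ?_⟩
  have hY1 : (1 : ℝ) ≤ Y := by exact_mod_cast hY
  have hlog : 0 ≤ Real.log Y := Real.log_nonneg hY1
  by_cases h3 : 3 ≤ Y
  · have h4 := (abs_le.mp (hC Y h3)).2
    have h5 : (1 : ℝ) < Real.log Y := by
      have h6 : (3 : ℝ) ≤ Y := by exact_mod_cast h3
      rw [Real.lt_log_iff_exp_lt (by linarith)]
      have := Real.exp_one_lt_d9
      linarith
    have h6 : ∑ p ∈ (Icc 1 Y).filter Nat.Prime, (1 : ℝ) / p ≤ C + Real.log (Real.log Y) := by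
      linarith
    calc Real.exp (∑ p ∈ (Icc 1 Y).filter Nat.Prime, (1 : ℝ) / p)
        ≤ Real.exp (C + Real.log (Real.log Y)) := Real.exp_le_exp.mpr h6
      _ = Real.exp C * Real.log Y := by rw [Real.exp_add, Real.exp_log (by linarith)]
      _ ≤ Real.exp (C + 2) * (1 + Real.log Y) := by
          refine mul_le_mul (Real.exp_le_exp.mpr (by linarith)) (by linarith) (by linarith)
            (Real.exp_pos _).le
  · have h4 : ∑ p ∈ (Icc 1 Y).filter Nat.Prime, (1 : ℝ) / p ≤ 2 := by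
      calc ∑ p ∈ (Icc 1 Y).filter Nat.Prime, (1 : ℝ) / p ≤ ∑ p ∈ Icc 1 Y, (1 : ℝ) / p :=
            sum_le_sum_of_subset_of_nonneg (filter_subset _ _) fun p _ _ => by positivity
        _ ≤ ∑ p ∈ Icc 1 Y, (1 : ℝ) := by
            refine sum_le_sum fun p hp => ?_
            rw [mem_Icc] at hp
            have : (1 : ℝ) ≤ p := by exact_mod_cast hp.1
            rw [div_le_one (by linarith)]
            exact this
        _ = Y := by simp
        _ ≤ 2 := by exact_mod_cast (by omega : Y ≤ 2)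
    calc Real.exp (∑ p ∈ (Icc 1 Y).filter Nat.Prime, (1 : ℝ) / p)
        ≤ Real.exp (C + 2) := Real.exp_le_exp.mpr (by linarith)
      _ ≤ Real.exp (C + 2) * (1 + Real.log Y) :=
          le_mul_of_one_le_right (Real.exp_pos _).le (by linarith)

/-- Powerful numbers, with a squarefree cube part. -/
theorem rep (q : ℕ) (hq : 0 < q) (h : Pw q) :
    ∃ a b : ℕ, 0 < a ∧ 0 < b ∧ Squarefree b ∧ q = a ^ 2 * b ^ 3 := by
  obtain ⟨b, c, hbc, hb⟩ := Nat.sq_mul_squarefree q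
  have hb0 : 0 < b := Nat.pos_of_ne_zero hb.ne_zero
  have hc0 : 0 < c := by
    rcases Nat.eq_zero_or_pos c with h0 | h0
    · rw [h0] at hbc; omega
    · exact h0
  have h1 : b ∣ c := by
    rw [← Nat.prod_primeFactors_of_squarefree hb]
    apply Finset.prod_primes_dvd
    · intro p hp
      exact (Nat.prime_of_mem_primeFactors hp).prime
    · intro p hp
      have hpp := Nat.prime_of_mem_primeFactors hp
      have hpb := Nat.dvd_of_mem_primeFactors hp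
      have h2 : p ^ 2 ∣ q := h p hpp (hbc ▸ Dvd.dvd.mul_left hpb _)
      by_contra hpc
      rw [← hbc] at h2
      have h3 : Nat.Coprime (p ^ 2) (c ^ 2) :=
        Nat.Coprime.pow 2 2 ((Nat.Prime.coprime_iff_not_dvd hpp).2 hpc)
      have h4 : p ^ 2 ∣ b := h3.dvd_of_dvd_mul_left h2
      have h5 := hb p (by rw [← sq]; exact h4)
      exact hpp.one_lt.ne' (Nat.isUnit_iff.1 h5)
  obtain ⟨a, rfl⟩ := h1
  refine ⟨a, b, Nat.pos_of_ne_zero (fun h0 => by rw [h0, mul_zero] at hc0; omega), hb0, hb, ?_⟩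
  rw [← hbc]
  ring

open Classical in
/-- The sum over the powerful numbers. -/
theorem sum_pw (r Y : ℕ) (hY : 1 ≤ Y) :
    ∑ q ∈ (Icc 1 Y).filter Pw, (D r q : ℝ) ≤ √(Y : ℝ) *
      ((∑ a ∈ Icc 1 Y, (D r a : ℝ) * ((D r a : ℝ) * (1 / a))) *
        ∑ b ∈ (Icc 1 Y).filter Squarefree, (D r b : ℝ) ^ 3 * (1 / (b * √(b : ℝ)))) := by
  have hrep : ∀ q : ℕ, ∃ ab : ℕ × ℕ, 0 < q → Pw q →
      0 < ab.1 ∧ 0 < ab.2 ∧ Squarefree ab.2 ∧ q = ab.1 ^ 2 * ab.2 ^ 3 := by
    intro q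
    by_cases h : 0 < q ∧ Pw q
    · obtain ⟨a, b, h1⟩ := rep q h.1 h.2
      exact ⟨(a, b), fun _ _ => h1⟩
    · exact ⟨(1, 1), fun h1 h2 => absurd ⟨h1, h2⟩ h⟩
  choose g hg using hrep
  rw [sum_mul_sum, ← sum_product', mul_sum]
  have hinj : Set.InjOn g ((Icc 1 Y).filter Pw : Finset ℕ) := by
    intro q hq q' hq' h
    rw [mem_coe, mem_filter, mem_Icc] at hq hq'
    rw [(hg q (by omega) hq.2).2.2.2, (hg q' (by omega) hq'.2).2.2.2, h]
  have hsub : ((Icc 1 Y).filter Pw).image g ⊆ Icc 1 Y ×ˢ (Icc 1 Y).filter Squarefree := by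
    intro x hx
    rw [mem_image] at hx
    obtain ⟨q, hq, rfl⟩ := hx
    rw [mem_filter, mem_Icc] at hq
    obtain ⟨h1, h2, h3, h4⟩ := hg q (by omega) hq.2
    have h5 : (g q).1 ≤ q := by
      calc (g q).1 ≤ (g q).1 ^ 2 := Nat.le_self_pow (by norm_num) _
        _ ≤ (g q).1 ^ 2 * (g q).2 ^ 3 := Nat.le_mul_of_pos_right _ (by positivity)
        _ = q := h4.symm
    have h6 : (g q).2 ≤ q := by
      calc (g q).2 ≤ (g q).2 ^ 3 := Nat.le_self_pow (by norm_num) _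
        _ ≤ (g q).1 ^ 2 * (g q).2 ^ 3 := Nat.le_mul_of_pos_left _ (by positivity)
        _ = q := h4.symm
    rw [mem_product, mem_filter, mem_Icc, mem_Icc]
    exact ⟨⟨h1, h5.trans hq.1.2⟩, ⟨h2, h6.trans hq.1.2⟩, h3⟩
  refine le_trans ?_ (sum_le_sum_of_subset_of_nonneg hsub fun x _ _ => by positivity)
  rw [sum_image hinj]
  refine sum_le_sum fun q hq => ?_
  rw [mem_filter, mem_Icc] at hq
  obtain ⟨h1, h2, h3, h4⟩ := hg q (by omega) hq.2
  set a := (g q).1 with ha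
  set b := (g q).2 with hb
  have ha1 : (1 : ℝ) ≤ a := by exact_mod_cast h1
  have hb1 : (1 : ℝ) ≤ b := by exact_mod_cast h2
  have h5 : D r q ≤ (D r a * D r a) * (D r b * D r b * D r b) := by
    rw [h4]
    have e1 : a ^ 2 * b ^ 3 = (a * a) * (b * b * b) := by ring
    rw [e1]
    have ha0 : a ≠ 0 := by omega
    have hb0 : b ≠ 0 := by omega
    refine (D_mul_le r (by positivity) (by positivity)).trans ?_
    refine Nat.mul_le_mul (D_mul_le r ha0 ha0) ?_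
    refine (D_mul_le r (by positivity) hb0).trans ?_
    exact Nat.mul_le_mul_right _ (D_mul_le r hb0 hb0)
  have h6 : (D r q : ℝ) ≤ ((D r a : ℝ) * D r a) * ((D r b : ℝ) * D r b * D r b) := by
    exact_mod_cast h5
  have h7 : (a : ℝ) * (b * √(b : ℝ)) ≤ √(Y : ℝ) := by
    apply Real.le_sqrt_of_sq_le
    have h8 : ((a : ℝ) * (b * √(b : ℝ))) ^ 2 = (a : ℝ) ^ 2 * b ^ 3 := by
      rw [mul_pow, mul_pow, Real.sq_sqrt (Nat.cast_nonneg b)]
      ring
    rw [h8]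
    have h9 : a ^ 2 * b ^ 3 ≤ Y := by rw [← h4]; exact hq.1.2
    exact_mod_cast h9
  have hsb : 0 < √(b : ℝ) := Real.sqrt_pos.mpr (by linarith)
  have h10 : 1 ≤ √(Y : ℝ) * (1 / ((a : ℝ) * (b * √(b : ℝ)))) := by
    rw [mul_one_div, le_div_iff₀ (by positivity), one_mul]
    exact h7
  calc (D r q : ℝ) ≤ ((D r a : ℝ) * D r a) * ((D r b : ℝ) * D r b * D r b) * 1 := by
        rw [mul_one]; exact h6
    _ ≤ ((D r a : ℝ) * D r a) * ((D r b : ℝ) * D r b * D r b) *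
        (√(Y : ℝ) * (1 / ((a : ℝ) * (b * √(b : ℝ))))) :=
        mul_le_mul_of_nonneg_left h10 (by positivity)
    _ = _ := by
        have ha0 : (a : ℝ) ≠ 0 := by linarith
        have hb0 : (b : ℝ) ≠ 0 := by linarith
        field_simp

open Classical in
theorem count (r N : ℕ) (hN : 1 ≤ N) :
    (((Fintype.piFinset (fun _ : Fin r => Icc 1 N)).filter (fun f => Pw (∏ i, f i))).card : ℝ) ≤
      ∑ q ∈ (Icc 1 (N ^ r)).filter Pw, (D r q : ℝ) := by
  have h1 : ∀ f ∈ (Fintype.piFinset (fun _ : Fin r => Icc 1 N)).filter (fun f => Pw (∏ i, f i)),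
      ∏ i, f i ∈ (Icc 1 (N ^ r)).filter Pw := by
    intro f hf
    rw [mem_filter, Fintype.mem_piFinset] at hf
    rw [mem_filter, mem_Icc]
    refine ⟨⟨?_, ?_⟩, hf.2⟩
    · exact Nat.one_le_iff_ne_zero.mpr (prod_ne_zero_iff.mpr fun i _ => by
        have := (mem_Icc.mp (hf.1 i)).1
        omega)
    · calc ∏ i, f i ≤ ∏ _i : Fin r, N := prod_le_prod' fun i _ => (mem_Icc.mp (hf.1 i)).2
        _ = N ^ r := by simp
  rw [card_eq_sum_card_fiberwise h1]
  push_cast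
  refine sum_le_sum fun q hq => ?_
  have h2 : (((Fintype.piFinset (fun _ : Fin r => Icc 1 N)).filter (fun f => Pw (∏ i, f i))).filter
      (fun f => ∏ i, f i = q)).card ≤ D r q := by
    refine card_le_card fun f hf => ?_
    rw [mem_filter] at hf
    rw [Nat.mem_finMulAntidiag]
    refine ⟨hf.2, ?_⟩
    rw [mem_filter, mem_Icc] at hq
    omega
  exact_mod_cast h2

/-- The package CPW. -/
theorem cpw : S_CPW := by
  classical
  obtain ⟨C, hC1, hC⟩ := mert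
  refine ⟨C, hC1, fun r N hr hN => ?_⟩
  set Y : ℕ := N ^ r with hYdef
  have hY : 1 ≤ Y := Nat.one_le_pow _ _ hN
  have hY1 : (1 : ℝ) ≤ Y := by exact_mod_cast hY
  have hN1 : (1 : ℝ) ≤ N := by exact_mod_cast hN
  have hlog : Real.log Y = r * Real.log N := by
    rw [hYdef]
    push_cast
    rw [Real.log_pow]
  have hlog0 : 0 ≤ Real.log Y := Real.log_nonneg hY1
  have hsq : √(Y : ℝ) = (N : ℝ) ^ ((r : ℝ) / 2) := by
    rw [Real.sqrt_eq_rpow, hYdef]
    push_cast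
    rw [← Real.rpow_natCast, ← Real.rpow_mul (by linarith)]
    congr 1
    ring
  have h1 := count r N hN
  have h2 := sum_pw r Y hY
  have h3 := sum_DD r Y hY
  have h4 := (sum_sqf r Y).trans (prod_le r Y)
  have h5 : Real.exp (∑ p ∈ (Icc 1 Y).filter Nat.Prime, (1 : ℝ) / p) ^ (r ^ 2) ≤
      (C * (1 + Real.log Y)) ^ (r ^ 2) := pow_le_pow_left₀ (Real.exp_pos _).le (hC Y hY) _
  have hbase : 1 + Real.log Y ≤ C * (1 + Real.log Y) := le_mul_of_one_le_left (by linarith) hC1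
  have hbase1 : 1 ≤ C * (1 + Real.log Y) := by linarith
  have h6 : ((1 + Real.log Y) ^ r) ^ r ≤ (C * (1 + Real.log Y)) ^ (r ^ 2) := by
    rw [← pow_mul, ← sq]
    exact pow_le_pow_left₀ (by linarith) hbase _
  have h7 : (∑ a ∈ Icc 1 Y, (D r a : ℝ) * ((D r a : ℝ) * (1 / a))) *
      ∑ b ∈ (Icc 1 Y).filter Squarefree, (D r b : ℝ) ^ 3 * (1 / (b * √(b : ℝ))) ≤
      (C * (1 + Real.log Y)) ^ (r ^ 2) * (C * (1 + Real.log Y)) ^ (r ^ 2) :=
    mul_le_mul (h3.trans h6) (h4.trans h5) (sum_nonneg fun b _ => by positivity)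
      (by positivity)
  have h8 : (C * (1 + Real.log Y)) ^ (r ^ 2) * (C * (1 + Real.log Y)) ^ (r ^ 2) ≤
      (C * (1 + Real.log Y)) ^ (3 * r ^ 2) := by
    rw [← pow_add]
    exact pow_le_pow_right₀ hbase1 (by omega)
  rw [← hsq, ← hlog]
  calc _ ≤ ∑ q ∈ (Icc 1 Y).filter Pw, (D r q : ℝ) := by convert h1
    _ ≤ √(Y : ℝ) * _ := by convert h2
    _ ≤ √(Y : ℝ) * (C * (1 + Real.log Y)) ^ (3 * r ^ 2) :=
        mul_le_mul_of_nonneg_left (h7.trans h8) (Real.sqrt_nonneg _)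

end Pool.Agent.P8H75.KV
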